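import Mathlib
import Pool.Agent.H9.AntiDefs
import Pool.Agent.H9.AntiFinal

set_option autoImplicit false

namespace Pool.Agent.Results.MP_daf63b_nt.AllButThree

open Pool.Agent.H9.Anti

/-- For all coprime `p > q ≥ 2` other than `(3,2)` and the three pairs `(5,2)`, `(9,2)`, `(5,3)`
there are infinitely many positive integers coprime to `pq` that are non-representable. -/
theorem result (p q : ℕ) (hq : 2 ≤ q) (hqp : q < p) (hco : Nat.Coprime p q)
    (h32 : (p, q) ≠ (3, 2)) (h52 : (p, q) ≠ (5, 2)) (h92 : (p, q) ≠ (9, 2))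
    (h53 : (p, q) ≠ (5, 3)) :
    {n : ℕ | 0 < n ∧ Nat.Coprime n (p*q) ∧ ¬ Representable p q n}.Infinite :=
  main p q hq hqp hco h32 h52 h92 h53

end Pool.Agent.Results.MP_daf63b_nt.AllButThree
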